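import Pool.Agent.helper83.LS.Spec

/-! # ls:SM: symmetries act on drawings -/

set_option autoImplicit false

namespace LSH

/-- image of an edge -/
def SM_emap (g : Pt → Pt) (s : Bool) (e : Edge) : Edge := ⟨g e.a, g e.b, xor e.h s⟩

theorem SM_root (d : PT) (g : Pt → Pt) (s : Bool) : (d.map g s).root = g d.root := by
  cases d <;> rfl

theorem SM_shape (d : PT) (g : Pt → Pt) (s : Bool) : (d.map g s).shape = d.shape := by
  induction d with
  | leaf x => rfl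
  | un x h t ih => simp only [PT.map, PT.shape, ih]
  | br x h u k t ih1 ih2 => simp only [PT.map, PT.shape, ih1, ih2]

theorem SM_pts (d : PT) (g : Pt → Pt) (s : Bool) : (d.map g s).pts = d.pts.map g := by
  induction d with
  | leaf x => simp only [PT.map, PT.pts, Multiset.map_singleton]
  | un x h t ih => simp only [PT.map, PT.pts, ih, Multiset.map_cons]
  | br x h u k t ih1 ih2 =>
    simp only [PT.map, PT.pts, ih1, ih2, Multiset.map_cons, Multiset.map_add]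

theorem SM_edges (d : PT) (g : Pt → Pt) (s : Bool) :
    (d.map g s).edges = d.edges.map (SM_emap g s) := by
  induction d with
  | leaf x => rfl
  | un x h t ih =>
    simp only [PT.map, PT.edges, ih, List.map_cons, SM_emap, SM_root]
  | br x h u k t ih1 ih2 =>
    simp only [PT.map, PT.edges, ih1, ih2, List.map_cons, List.map_append, SM_emap, SM_root]

theorem SM_att (d : PT) (g : Pt → Pt) (s : Bool) (p : Pt) (h : Bool) :
    att (g p) (xor h s) (d.map g s) = (att p h d).map (SM_emap g s) := by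
  simp only [att, SM_edges, List.map_cons, SM_emap, SM_root]

/-- a symmetry: an involution compatible with `on`. -/
def SM_Sym (g : Pt → Pt) (s : Bool) : Prop :=
  (∀ z, g (g z) = z) ∧ ∀ (e : Edge) (z : Pt), (SM_emap g s e).on z → e.on (g z)

theorem SM_NC (g : Pt → Pt) (s : Bool) (hg : SM_Sym g s) (e f : Edge) (h : NC e f) :
    NC (SM_emap g s e) (SM_emap g s f) := by
  intro z h1 h2
  obtain ⟨h3, h4⟩ := h (g z) (hg.2 e z h1) (hg.2 f z h2)
  have key : ∀ w : Pt, g z = w → z = g w := by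
    intro w hw
    rw [← hw, hg.1]
  refine ⟨?_, ?_⟩
  · rcases h3 with h3 | h3
    · exact Or.inl (key _ h3)
    · exact Or.inr (key _ h3)
  · rcases h4 with h4 | h4
    · exact Or.inl (key _ h4)
    · exact Or.inr (key _ h4)

theorem SM_pw (g : Pt → Pt) (s : Bool) (hg : SM_Sym g s) (l : List Edge) (h : l.Pairwise NC) :
    (l.map (SM_emap g s)).Pairwise NC := by
  rw [List.pairwise_map]
  exact h.imp (fun {a b} hab => SM_NC g s hg a b hab)

theorem SM_val (g : Pt → Pt) (s : Bool) (hg : SM_Sym g s) (S : Finset Pt) (d : PT)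
    (h : d.pts = S.val) : (d.map g s).pts = (S.image g).val := by
  have hi : Function.Injective g := fun a b hab => by
    have := congrArg g hab
    rwa [hg.1, hg.1] at this
  rw [SM_pts, h, Finset.image_val_of_injOn hi.injOn]

theorem SM_Att (g : Pt → Pt) (s : Bool) (hg : SM_Sym g s) (p : Pt) (h : Bool) (t : BT)
    (S : Finset Pt) (d : PT) (hd : Att p h t S d) :
    Att (g p) (xor h s) t (S.image g) (d.map g s) := by
  refine ⟨?_, SM_val g s hg S d hd.2.1, ?_⟩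
  · rw [SM_shape]
    exact hd.1
  · rw [SM_att]
    exact SM_pw g s hg _ hd.2.2

theorem SM_Draw (g : Pt → Pt) (s : Bool) (hg : SM_Sym g s) (t : BT)
    (S : Finset Pt) (d : PT) (hd : Draw t S d) : Draw t (S.image g) (d.map g s) := by
  refine ⟨?_, SM_val g s hg S d hd.2.1, ?_⟩
  · rw [SM_shape]
    exact hd.1
  · rw [SM_edges]
    exact SM_pw g s hg _ hd.2.2

theorem SM_neg (x a b : ℝ) (h : x ∈ Set.uIcc (-a) (-b)) : -x ∈ Set.uIcc a b := by
  rw [Set.mem_uIcc] at h ⊢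
  rcases h with ⟨h1, h2⟩ | ⟨h1, h2⟩
  · right; constructor <;> linarith
  · left; constructor <;> linarith

theorem SM_fx : SM_Sym fx false := by
  refine ⟨fun z => by simp [fx], ?_⟩
  rintro ⟨a, b, h⟩ z hz
  simp only [Edge.on, SM_emap, fx, Bool.xor_false] at hz ⊢
  rcases hz with ⟨h0, ⟨h1, h2⟩ | ⟨h1, h2⟩⟩ | ⟨h0, ⟨h1, h2⟩ | ⟨h1, h2⟩⟩
  · exact Or.inl ⟨h0, Or.inl ⟨h1, SM_neg _ _ _ h2⟩⟩
  · exact Or.inl ⟨h0, Or.inr ⟨by rw [h1, neg_neg], h2⟩⟩
  · exact Or.inr ⟨h0, Or.inl ⟨by rw [h1, neg_neg], h2⟩⟩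
  · exact Or.inr ⟨h0, Or.inr ⟨h1, SM_neg _ _ _ h2⟩⟩

theorem SM_fy : SM_Sym fy false := by
  refine ⟨fun z => by simp [fy], ?_⟩
  rintro ⟨a, b, h⟩ z hz
  simp only [Edge.on, SM_emap, fy, Bool.xor_false] at hz ⊢
  rcases hz with ⟨h0, ⟨h1, h2⟩ | ⟨h1, h2⟩⟩ | ⟨h0, ⟨h1, h2⟩ | ⟨h1, h2⟩⟩
  · exact Or.inl ⟨h0, Or.inl ⟨by rw [h1, neg_neg], h2⟩⟩
  · exact Or.inl ⟨h0, Or.inr ⟨h1, SM_neg _ _ _ h2⟩⟩
  · exact Or.inr ⟨h0, Or.inl ⟨h1, SM_neg _ _ _ h2⟩⟩
  · exact Or.inr ⟨h0, Or.inr ⟨by rw [h1, neg_neg], h2⟩⟩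

theorem SM_sw : SM_Sym sw true := by
  refine ⟨fun z => by simp [sw], ?_⟩
  rintro ⟨a, b, h⟩ z hz
  simp only [Edge.on, SM_emap, sw, Bool.xor_true, Bool.not_eq_true', Bool.not_eq_false'] at hz ⊢
  rcases hz with ⟨h0, ⟨h1, h2⟩ | ⟨h1, h2⟩⟩ | ⟨h0, ⟨h1, h2⟩ | ⟨h1, h2⟩⟩
  · exact Or.inr ⟨h0, Or.inl ⟨h1, h2⟩⟩
  · exact Or.inr ⟨h0, Or.inr ⟨h1, h2⟩⟩
  · exact Or.inl ⟨h0, Or.inl ⟨h1, h2⟩⟩
  · exact Or.inl ⟨h0, Or.inr ⟨h1, h2⟩⟩

theorem SM : SM_stmt := by
  refine ⟨?_, ?_, ?_, ?_, ?_, ?_, SM_root⟩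
  · intro p h t S d hd
    have := SM_Att fx false SM_fx p h t S d hd
    rwa [Bool.xor_false] at this
  · intro p h t S d hd
    have := SM_Att fy false SM_fy p h t S d hd
    rwa [Bool.xor_false] at this
  · intro p h t S d hd
    have := SM_Att sw true SM_sw p h t S d hd
    rwa [Bool.xor_true] at this
  · exact SM_Draw fx false SM_fx
  · exact SM_Draw fy false SM_fy
  · exact SM_Draw sw true SM_sw

end LSH
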